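import Pool.Agent.K.MP_bc8dca_nt.C0

namespace Pool.Agent.P.MP_bc8dca_nt

open Finset Filter Real

/-- all but an exponentially small share of `u < 2 ^ f` need more than `c f` steps -/
def Slow (c : ℝ) : Prop :=
  ∃ δ > 0, ∀ᶠ f : ℕ in atTop, cnt f (fun u => Reach u (c * f)) ≤ 2 ^ f * exp (-(δ * f))

theorem l2_lb : 0.69 < log 2 := by have := Real.log_two_gt_d9; linarith
theorem l2_ub : log 2 < 0.7 := by have := Real.log_two_lt_d9; linarith
theorem l3_lb : 1.05 < log 3 := by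
  have h : log (2 ^ 19 : ℝ) ≤ log (3 ^ 12) := Real.log_le_log (by norm_num) (by norm_num)
  rw [Real.log_pow, Real.log_pow] at h
  have := l2_lb
  push_cast at h
  linarith
theorem l3_ub : log 3 < 1.12 := by
  have h : log (3 ^ 5 : ℝ) ≤ log (2 ^ 8) := Real.log_le_log (by norm_num) (by norm_num)
  rw [Real.log_pow, Real.log_pow] at h
  have := l2_ub
  push_cast at h
  linarith

theorem two_pow_eq (n : ℕ) : (2 : ℝ) ^ n = exp (log 2 * n) := by
  rw [mul_comm, Real.exp_nat_mul, Real.exp_log (by norm_num)]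

theorem three_pow_eq (n : ℕ) : (3 : ℝ) ^ n = exp (log 3 * n) := by
  rw [mul_comm, Real.exp_nat_mul, Real.exp_log (by norm_num)]

/-- lower bound for typical orbits -/
theorem typ_lower (ε : ℝ) (hε : 0 < ε) (f M c u : ℕ) (hu : exp ((log 2 - ε) * f) ≤ u)
    (ht : Typ ε f (M * u + c)) (j : ℕ) (hj : j ≤ f) :
    M * exp ((log 3 / 2 - 3 * ε) * f) ≤ (T^[j] (M * u + c) : ℕ) := by
  have a1 := (Nat.cast_le (α := ℝ)).2 (iter_lower j (M * u + c))
  have a2 := ht.1 j hj
  push_cast at a1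
  rw [two_pow_eq, three_pow_eq] at a1
  have hj' : (j : ℝ) ≤ f := by exact_mod_cast hj
  have hf : (0 : ℝ) ≤ f := by positivity
  have l2 := l2_lb
  have l3 := l3_lb
  have l3' := l3_ub
  have hM : (0 : ℝ) ≤ M := by positivity
  have a3 : (log 3 / 2 - 3 * ε) * f + log 2 * j ≤
      log 3 * od j (M * u + c) + (log 2 - ε) * f := by
    have b1 : log 3 * ((j : ℝ) / 2 - ε * f) ≤ log 3 * od j (M * u + c) :=
      mul_le_mul_of_nonneg_left a2.le (by linarith)
    have b2 : (log 2 - log 3 / 2) * j ≤ (log 2 - log 3 / 2) * f :=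
      mul_le_mul_of_nonneg_left hj' (by linarith)
    have b3 : 0 ≤ ε * f := by positivity
    nlinarith
  have a4 : exp (log 2 * j) * (M * exp ((log 3 / 2 - 3 * ε) * f)) ≤
      exp (log 3 * od j (M * u + c)) * (M * u + c) := by
    calc exp (log 2 * j) * (M * exp ((log 3 / 2 - 3 * ε) * f))
        = M * exp ((log 3 / 2 - 3 * ε) * f + log 2 * j) := by rw [exp_add]; ring
      _ ≤ M * exp (log 3 * od j (M * u + c) + (log 2 - ε) * f) := by gcongr
      _ = exp (log 3 * od j (M * u + c)) * (M * exp ((log 2 - ε) * f)) := by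
          rw [exp_add]; ring
      _ ≤ exp (log 3 * od j (M * u + c)) * (M * u + c) := by
          apply mul_le_mul_of_nonneg_left _ (exp_pos _).le
          have := mul_le_mul_of_nonneg_left hu hM
          have : (0 : ℝ) ≤ c := by positivity
          linarith
  exact le_of_mul_le_mul_left (a4.trans a1) (exp_pos _)

/-- upper bound for the endpoint of typical orbits -/
theorem typ_upper (ε B : ℝ) (hB : 0 < B) (f M c u : ℕ) (hfB : (f : ℝ) ≤ B) (hc : c ≤ M)
    (hu : u < 2 ^ f) (ht : Typ ε f (M * u + c))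
    (h2 : ∀ j ≤ f, B ≤ (T^[j] (M * u + c) : ℕ)) :
    ((T^[f] (M * u + c) : ℕ) : ℝ) ≤ 3 * M * exp (log 3 * (1 / 2 + ε) * f) := by
  have a1 := iter_upper B hB f (M * u + c) (fun j hj => h2 j hj.le)
  have a3 := one_add_pow_le B hB f hfB
  have a4 : 2 * (f : ℝ) / B ≤ 2 := by rw [div_le_iff₀ hB]; linarith
  have a6 : ((M * u + c : ℕ) : ℝ) ≤ M * 2 ^ f := by
    have b1 : u + 1 ≤ 2 ^ f := hu
    have b2 : M * u + c ≤ M * 2 ^ f := by nlinarith
    exact_mod_cast b2
  have a7 : (3 : ℝ) ^ od f (M * u + c) ≤ exp (log 3 * (1 / 2 + ε) * f) := by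
    rw [three_pow_eq]
    apply exp_le_exp.2
    have := ht.2
    have l3 := l3_lb
    nlinarith
  have a8 : (2 : ℝ) ^ f * (T^[f] (M * u + c) : ℕ) ≤
      2 ^ f * (3 * M * exp (log 3 * (1 / 2 + ε) * f)) := by
    calc (2 : ℝ) ^ f * (T^[f] (M * u + c) : ℕ)
        ≤ 3 ^ od f (M * u + c) * (M * u + c : ℕ) * (1 + 1 / B) ^ f := a1
      _ ≤ exp (log 3 * (1 / 2 + ε) * f) * (M * 2 ^ f) * 3 := by
          gcongr
          linarith
      _ = _ := by ring
  exact le_of_mul_le_mul_left a8 (by positivity)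

theorem core (c ν : ℝ) (hP : Slow c) (hc : 0 ≤ c) (hν : 0 ≤ ν) (hν' : ν + log 3 / 2 ≤ log 2)
    (M c0 : ℕ → ℕ) (hM : ∀ f, M f % 2 = 1) (hM1 : ∀ f : ℕ, exp (ν * f) / 3 ≤ M f)
    (hM2 : ∀ f : ℕ, (M f : ℝ) ≤ exp (ν * f)) (hc0 : ∀ f, c0 f ≤ M f) :
    ∃ δ > 0, ∀ᶠ f : ℕ in atTop,
      cnt f (fun u => Reach (M f * u + c0 f) (f + c * ((ν + log 3 / 2) / log 2) * f)) ≤
        2 ^ f * exp (-(δ * f)) := by
  classical
  obtain ⟨δ, hδ, hP⟩ := hP
  have l2 := l2_lb
  have l2' := l2_ub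
  have l3 := l3_lb
  have l3' := l3_ub
  set μ := (ν + log 3 / 2) / log 2 with hμ
  have hμ1 : μ * log 2 = ν + log 3 / 2 := by rw [hμ]; field_simp
  have hμ2 : 1 / 2 ≤ μ := by rw [hμ, le_div_iff₀ (by linarith)]; linarith
  obtain ⟨ε, hε, hε1, hε2⟩ : ∃ ε : ℝ, 0 < ε ∧ ε ≤ δ / 24 ∧ ε ≤ 1 / 30 :=
    ⟨min (δ / 24) (1 / 30), by positivity, min_le_left _ _, min_le_right _ _⟩
  refine ⟨ε ^ 2, by positivity, ?_⟩
  have ht : Tendsto (fun f : ℕ => ⌈(μ + 4 * ε) * f⌉₊) atTop atTop :=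
    tendsto_nat_ceil_atTop.comp
      (tendsto_natCast_atTop_atTop.const_mul_atTop (by linarith))
  have he : ∀ᶠ f : ℕ in atTop, 1 / ε ≤ (f : ℝ) :=
    tendsto_natCast_atTop_atTop.eventually_ge_atTop _
  filter_upwards [ht.eventually hP, he, poly_le_exp (ε ^ 2) (by positivity),
    poly_le_exp 0.4 (by norm_num)] with f hP he hp1 hp2
  set f' := ⌈(μ + 4 * ε) * f⌉₊ with hf'
  have hf0 : (0 : ℝ) ≤ f := by positivity
  have hεf : 1 ≤ ε * f := by rw [div_le_iff₀ hε] at he; linarith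
  have hf1 : (μ + 4 * ε) * f ≤ f' := Nat.le_ceil _
  have hf2 : (f' : ℝ) < (μ + 4 * ε) * f + 1 := Nat.ceil_lt_add_one (by positivity)
  have hMpos : 0 < M f := by have := hM f; omega
  have hMr : (1 : ℝ) ≤ M f := by exact_mod_cast hMpos
  set B : ℝ := M f * exp ((log 3 / 2 - 3 * ε) * f) with hB
  have hBf : (f : ℝ) + 1 < B := by
    have b1 : exp (0.4 * f) ≤ exp ((log 3 / 2 - 3 * ε) * f) := by
      apply exp_le_exp.2
      apply mul_le_mul_of_nonneg_right _ hf0
      linarith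
    have b2 : exp ((log 3 / 2 - 3 * ε) * f) ≤ B := by
      rw [hB]
      exact le_mul_of_one_le_left (exp_pos _).le hMr
    nlinarith
  have hB0 : 0 < B := by linarith
  set R : ℕ := ⌊2 * f * 2 ^ f / B⌋₊ + 1 with hR
  have hR1 : 2 * f * 2 ^ f / B < R := by rw [hR]; push_cast; exact Nat.lt_floor_add_one _
  have hR2 : (R : ℝ) ≤ 2 * f * 2 ^ f / B + 1 := by
    rw [hR]; push_cast
    have := Nat.floor_le (show (0 : ℝ) ≤ 2 * f * 2 ^ f / B by positivity)
    linarith
  set K : ℝ := c * μ * f with hK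
  set U : ℕ := ⌈exp ((log 2 - ε) * f)⌉₊ with hU
  set S := (range (2 ^ f)).filter (fun u => U ≤ u ∧ Typ ε f (M f * u + c0 f) ∧
    Reach (M f * u + c0 f) (f + K)) with hS
  have hSB : ∀ u ∈ S, ∀ j ≤ f, B ≤ (T^[j] (M f * u + c0 f) : ℕ) := by
    intro u hu j hj
    rw [hS, mem_filter] at hu
    exact typ_lower ε hε f _ _ u (Nat.ceil_le.1 hu.2.1) hu.2.2.1 j hj
  have hfib := fibre S f f' (M f) (c0 f) R B K (by linarith) (by linarith) hMpos (hc0 f) hR1
    (fun u hu => by rw [hS, mem_filter, mem_range] at hu; exact hu.1) hSB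
    (fun u hu => by
      have hu' := hu
      rw [hS, mem_filter, mem_range] at hu'
      have b1 := typ_upper ε B hB0 f _ _ u (by linarith) (hc0 f) hu'.1 hu'.2.2.1 (hSB u hu)
      have b2 : 3 * (M f : ℝ) * exp (log 3 * (1 / 2 + ε) * f) < 2 ^ f' := by
        rw [two_pow_eq]
        calc 3 * (M f : ℝ) * exp (log 3 * (1 / 2 + ε) * f)
            ≤ exp (log 3) * exp (ν * f) * exp (log 3 * (1 / 2 + ε) * f) := by
              rw [Real.exp_log (by norm_num)]
              gcongr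
              exact hM2 f
          _ = exp (log 3 + ν * f + log 3 * (1 / 2 + ε) * f) := by rw [← exp_add, ← exp_add]
          _ < exp (log 2 * f') := by
              apply exp_lt_exp.2
              have c1 : log 2 * ((μ + 4 * ε) * f) ≤ log 2 * f' :=
                mul_le_mul_of_nonneg_left hf1 (by linarith)
              have c2 : log 2 * ((μ + 4 * ε) * f) =
                  (ν + log 3 / 2) * f + 4 * log 2 * (ε * f) := by rw [← hμ1]; ring
              nlinarith
      exact_mod_cast b1.trans_lt b2)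
    (fun u hu => by rw [hS, mem_filter] at hu; exact hu.2.2.2)
  have hmono : cnt f' (fun y => Reach y K) ≤ cnt f' (fun y => Reach y (c * f')) := by
    unfold cnt
    apply Nat.cast_le.2
    apply card_le_card
    intro y hy
    rw [mem_filter] at hy ⊢
    refine ⟨hy.1, hy.2.mono ?_⟩
    rw [hK, mul_assoc]
    apply mul_le_mul_of_nonneg_left _ hc
    nlinarith
  have hsub : (range (2 ^ f)).filter (fun u => Reach (M f * u + c0 f) (f + K)) ⊆
      range U ∪ (range (2 ^ f)).filter (fun u => ¬ Typ ε f (M f * u + c0 f)) ∪ S := by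
    intro u hu
    rw [mem_filter] at hu
    simp only [mem_union, mem_filter, hS]
    by_cases h1 : U ≤ u
    · by_cases h2 : Typ ε f (M f * u + c0 f)
      · right; exact ⟨hu.1, h1, h2, hu.2⟩
      · left; right; exact ⟨hu.1, h2⟩
    · left; left; rw [mem_range]; omega
  have hc1 := (card_le_card hsub).trans ((card_union_le _ _).trans
    (Nat.add_le_add_right (card_union_le _ _) _))
  have hc2 := (Nat.cast_le (α := ℝ)).2 hc1
  rw [card_range] at hc2
  push_cast at hc2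
  have hat := atyp_card ε hε f (M f) (c0 f) (hM f)
  set E : ℝ := 2 ^ f * exp (-(2 * ε ^ 2 * f)) with hE
  have hE0 : 0 < E := by positivity
  have hεε : 2 * ε ^ 2 * f ≤ ε * f := by
    have : 2 * ε ^ 2 ≤ ε := by nlinarith
    exact mul_le_mul_of_nonneg_right this hf0
  have hU1 : (U : ℝ) ≤ 2 * E := by
    have b1 : (U : ℝ) < exp ((log 2 - ε) * f) + 1 := Nat.ceil_lt_add_one (exp_pos _).le
    have b2 : 1 ≤ exp ((log 2 - ε) * f) := one_le_exp (mul_nonneg (by linarith) hf0)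
    have b3 : exp ((log 2 - ε) * f) ≤ E := by
      rw [hE, two_pow_eq, ← exp_add]
      apply exp_le_exp.2
      linarith
    linarith
  have hS1 : (S.card : ℝ) ≤ (f + 1) * (12 * f + 2) * E := by
    have b1 : (2 : ℝ) ^ f' ≤ 2 * exp ((ν + log 3 / 2 + 3 * ε) * f) := by
      rw [two_pow_eq]
      calc exp (log 2 * f') ≤ exp (log 2 + (ν + log 3 / 2 + 3 * ε) * f) := by
            apply exp_le_exp.2
            have c1 : log 2 * f' ≤ log 2 * ((μ + 4 * ε) * f + 1) :=
              mul_le_mul_of_nonneg_left hf2.le (by linarith)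
            have c2 : log 2 * ((μ + 4 * ε) * f + 1) =
                (ν + log 3 / 2) * f + 4 * log 2 * (ε * f) + log 2 := by rw [← hμ1]; ring
            nlinarith
        _ = _ := by rw [exp_add, Real.exp_log (by norm_num)]
    have b2 : exp ((ν + log 3 / 2 + 3 * ε) * f) / B ≤ 3 * exp (6 * ε * f) := by
      rw [div_le_iff₀ hB0, hB]
      have c1 := hM1 f
      calc exp ((ν + log 3 / 2 + 3 * ε) * f)
          = 3 * exp (6 * ε * f) * (exp (ν * f) / 3 * exp ((log 3 / 2 - 3 * ε) * f)) := by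
            rw [show (ν + log 3 / 2 + 3 * ε) * f =
              6 * ε * f + (ν * f + (log 3 / 2 - 3 * ε) * f) by ring, exp_add, exp_add]
            ring
        _ ≤ _ := by gcongr
    have b3 : exp ((ν + log 3 / 2 + 3 * ε) * f) ≤ 2 ^ f * exp (6 * ε * f) := by
      rw [two_pow_eq, ← exp_add]
      apply exp_le_exp.2
      nlinarith
    have b4 : (2 : ℝ) ^ f' * R ≤ (12 * f + 2) * (2 ^ f * exp (6 * ε * f)) := by
      calc (2 : ℝ) ^ f' * R
          ≤ 2 * exp ((ν + log 3 / 2 + 3 * ε) * f) * (2 * f * 2 ^ f / B + 1) := by gcongr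
        _ = 4 * f * 2 ^ f * (exp ((ν + log 3 / 2 + 3 * ε) * f) / B) +
            2 * exp ((ν + log 3 / 2 + 3 * ε) * f) := by ring
        _ ≤ 4 * f * 2 ^ f * (3 * exp (6 * ε * f)) + 2 * (2 ^ f * exp (6 * ε * f)) := by gcongr
        _ = _ := by ring
    have b5 : exp (-(δ * f')) * exp (6 * ε * f) ≤ exp (-(2 * ε ^ 2 * f)) := by
      rw [← exp_add]
      apply exp_le_exp.2
      have c1 : δ * (1 / 2 * f) ≤ δ * f' := by
        apply mul_le_mul_of_nonneg_left _ hδ.le
        nlinarith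
      have c2 : 24 * ε * f ≤ δ * f := mul_le_mul_of_nonneg_right (by linarith) hf0
      nlinarith
    calc (S.card : ℝ) ≤ cnt f' (fun y => Reach y K) * ((f + 1) * R) := hfib
      _ ≤ 2 ^ f' * exp (-(δ * f')) * ((f + 1) * R) := by
          gcongr
          exact hmono.trans hP
      _ = (f + 1) * exp (-(δ * f')) * (2 ^ f' * R) := by ring
      _ ≤ (f + 1) * exp (-(δ * f')) * ((12 * f + 2) * (2 ^ f * exp (6 * ε * f))) := by gcongr
      _ = (f + 1) * (12 * f + 2) * (2 ^ f * (exp (-(δ * f')) * exp (6 * ε * f))) := by ring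
      _ ≤ (f + 1) * (12 * f + 2) * E := by rw [hE]; gcongr
  have hfin : 20 * ((f : ℝ) + 1) ^ 2 * E ≤ 2 ^ f * exp (-(ε ^ 2 * f)) := by
    calc 20 * ((f : ℝ) + 1) ^ 2 * E ≤ exp (ε ^ 2 * f) * E := by gcongr
      _ = 2 ^ f * (exp (ε ^ 2 * f) * exp (-(2 * ε ^ 2 * f))) := by rw [hE]; ring
      _ = _ := by rw [← exp_add]; congr 2; ring
  have hpoly : (2 + (f + 2) + (f + 1) * (12 * f + 2)) * E ≤ 20 * ((f : ℝ) + 1) ^ 2 * E := by
    apply mul_le_mul_of_nonneg_right _ hE0.le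
    nlinarith
  unfold cnt
  nlinarith

end Pool.Agent.P.MP_bc8dca_nt
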